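import Pool.Agent.R933.Pa.Deg

/-!
# The Farrell–Jones conjecture for Artin groups: cutting along separators

`C` is any class of groups with the closure properties `ClosedE C` which contains the groups
`GL_n(k(q))`, `k` an algebraic closure of a prime field `𝔽_p`. The class of the groups that satisfy the
K-theoretic (or the K- and L-theoretic) Farrell–Jones conjecture with coefficients in additive categories
and with finite wreath products is such a class (Rüping proved it for `GL_n` over function fields).

The Artin group `A(V) = Art m` of a finite set `V` with labels `m x y ∈ {0, 2, 3, 4, …}`, where `0` stands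
for the label `∞`, is generated by `V` with the relations `x y x ⋯ = y x y ⋯`, `m x y` letters on both
sides. The defining graph has an edge between `x` and `y` if `m x y ≠ 0`.

(1) Let `V` be the union of `V₁` and `V₂`, no edge between `V \ V₂` and `V \ V₁`, and suppose that
`V₁ ∩ V₂` is divided into classes such that generators in different classes commute (label `2`), and every
class has two elements (with any label) or no edges. For example this is so if `V₁ ∩ V₂` has at most two
elements or no edges. Then `A(V)` is in `C` if and only if `A(V₁)` and `A(V₂)` are.

(2) If the defining graph of `A(V)` is 2-degenerate (every nonempty full subgraph has a vertex of degree at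
most two: for instance all series-parallel graphs, all outerplanar graphs, all subdivisions of graphs in
which every edge is subdivided), then `A(V)` is in `C` if and only if the Artin groups of all triangles of
the defining graph are.

So the Farrell–Jones conjecture for all Artin groups reduces to the Artin groups whose defining graphs are
complete or cannot be separated by at most two vertices, nor by an independent set of vertices.

Outline of the proof.

* `A(V)` is the amalgamated product of `A(V₁)` and `A(V₂)` over `A(V₁ ∩ V₂)`. By the theorem
  `R665.FJ.am` on amalgamated products it suffices to find a homomorphism from `A(V)` to a group in `C`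
  which is injective on `A(V₁ ∩ V₂)`. Then also `A(V₁ ∩ V₂) → A(V_i) → A(V)` are injective.
* Such a homomorphism is the generalized Burau representation `A(V) → GL_V(k(q))` of the Hecke algebra of a
  generalized Cartan matrix modulo `p`, `p` larger than all the labels: `x ↦ 1 - E_x`, where `E_x` has
  the row `c_x` at `x` and other rows zero, `c_x x = 1 + q`, `c_x y c_y x = q (2 + ζ + ζ⁻¹)` for a primitive
  root of unity `ζ` of order `m x y ≥ 3`, `c_x y = c_y x = 0` for the label `2`, `c_x y = c_y x = q²` for the
  label `∞`.
* It is faithful on free groups, on the Artin groups with two generators and on their direct products: this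
  is proved with ping-pong on leading vectors in `q` of polynomial vectors. For two generators `s, t` with
  the label `m` the image of `s t` acts on leading vectors by a matrix of order `m` (modulo scalars for
  even `m`), and `A / Z(A)` is the free product of the images of `⟨s t⟩` and `⟨s⟩` (`m` even),
  of `⟨s t⟩` and the Garside element (`m` odd).
-/

set_option autoImplicit false

namespace Pool.Agent.Results.MP_c052b4_al.ArtinSeparators

open Pool.Agent.Y110.FJ Pool.Agent.R933.Pa

theorem result (C : ∀ (G : Type) [Group G], Prop) (hC : ClosedE C) (hGL : HasGL C)
    (V : Type) [Finite V] (m : V → V → ℕ) (hsymm : ∀ x y, m x y = m y x)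
    (hne : ∀ x y, x ≠ y → m x y ≠ 1) :
    (∀ V₁ V₂ : Set V, V₁ ∪ V₂ = Set.univ → (∀ x y, x ∉ V₁ → y ∉ V₂ → m x y = 0) →
      JoinOn m (V₁ ∩ V₂) → (C (Art m) ↔ C (Art (res m V₁)) ∧ C (Art (res m V₂)))) ∧
    ((∀ Y : Set V, Y.Nonempty → ∃ v ∈ Y, {y : V | y ∈ Y ∧ y ≠ v ∧ m v y ≠ 0}.ncard ≤ 2) →
      (C (Art m) ↔ ∀ x y z : V, Tri m x y z → C (Art (res m ({x, y, z} : Set V))))) := by
  refine ⟨fun V₁ V₂ hcov hsep hj => ?_, fun hdeg => deg hC hGL m hsymm hne hdeg⟩
  exact sep hC hGL m hsymm hne V₁ V₂ (fun x => by
    have h : x ∈ V₁ ∪ V₂ := by rw [hcov]; trivial
    exact h) hsep (isJoin_of hj)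

end Pool.Agent.Results.MP_c052b4_al.ArtinSeparators
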