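import Pool.Agent.R632.FR.Semi

/-!
# Functions with finite range and the Farrell–Jones conjecture

`C` is any class of groups with the closure properties `ClosedE C`, all of which are known for the
class of the groups that satisfy the Full Farrell–Jones Conjecture. `Wr Y A` is the unrestricted
wreath product of `A` with the symmetric group of `Y`: pairs of an arbitrary function `s : Y → A` and
a permutation `p` of `Y`.

(1) Let `A` be in `C`, let `Φ : G → Wr Y A` be a homomorphism and let `N` be a normal subgroup of `G`
with `G ⧸ N` in `C` such that `Φ` is injective on `N` and maps `N` to the base group, into the
functions with finite range. Then `G` is in `C`. (The sections of the other elements of `G` are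
arbitrary functions.)

(2) If `A` and `H` are in `C` and `H` acts on a set `Y`, then the semidirect product of the group of
all functions `Y → A` with finite range and `H` is in `C`.

The group in (2) contains the Boolean powers of `A` and, for each action of `H` on a compact totally
disconnected space `X`, the group `C(X, A) ⋊ H` of the locally constant functions. (Restricted
wreath products, with finitely supported functions, and profinite actions are easier.)

Outline of the proof. By `MP_490288_al.RealizationCriterion` it is enough to realize, for `g` in `G`
and a finite set `E ⊆ N`, the conjugation by `g` on `E` in a group in `C`. The functions in `E` and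
`g E g⁻¹` have only finitely many values, so their behaviour along each orbit of `g` on `Y` can be
imitated by sequences of points `(y_n)`, `n ∈ ℤ`, which become periodic in both directions, such that
the functions in `E` have equal values at `g⁻¹ y_(n+1)` and `y_n`. Evaluation at the points `y_n` gives
homomorphisms to the group of the functions `ℤ → A` which are eventually periodic at both ends,
extended by the translations of `ℤ`, and they turn `g` into a translation times a function. This group
is in `C`: its elements with trivial limits at both ends are finitely supported functions.
-/

set_option autoImplicit false

namespace Pool.Agent.Results.MP_c052b4_al.FiniteRangeWreath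

open Pool.Agent.Y110.FJ Pool.Agent.R632.FR
open Pool.Agent.Y462.SS (Wr)

/-- **Functions with finite range in a Farrell–Jones class.** -/
theorem result (C : ∀ (G : Type) [Group G], Prop) (hC : ClosedE C) (A : Type) [Group A]
    (hA : C A) (Y : Type) :
    (∀ (G : Type) [Group G] (N : Subgroup G) [N.Normal] (Φ : G →* Wr Y A), C (G ⧸ N) →
      (∀ n ∈ N, (Φ n).p = 1 ∧ (Set.range (Φ n).s).Finite ∧ (Φ n = 1 → n = 1)) → C G) ∧
    (∀ (H : Type) [Group H] [MulAction H Y], C H → C (FinRange Y A ⋊[shift Y A H] H)) :=
  ⟨fun _ _ N _ Φ hQ hN => fr hC hA N hQ Φ hN, fun H _ _ hH => semi hC Y A H hA hH⟩

end Pool.Agent.Results.MP_c052b4_al.FiniteRangeWreath
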