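import Pool.Agent.R472.GridExt

set_option autoImplicit false

/-! # Projective modules over group rings, the square grid, and the assembly map in degree zero

Let `R` be any ring, generated by `T`, and `G` a group generated by `S`. Every finitely generated
projective `RG`-module is presented by a square matrix whose rows (relations) and columns (generators)
are different points of the square grid, with entries zero except between neighbouring points, nonzero
entries `± s` or `± t`, and at most three of them in each row and in each column; so surjectivity of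
`K₀(R) → K₀(RG)` (which is the assembly map `A₀` if `R` is regular and `G` torsion-free) is a statement
on these modules. For torsion-free `G` and two generators in each relation it holds: a projective
`RG`-module presented by a matrix with entries `0` and `u g` (`u` a unit of `R`, `g` in `G`), with at
most two nonzero entries in each row, is `RG e₁ ⊕ ... ⊕ RG eₘ` for idempotents `eᵢ` of `R`.

Outline of the second part. A relation `u x + v y = 0` with trivial units `u`, `v` eliminates a
generator and keeps the form of the relations. If all relations involve one generator only, the module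
is a sum of cyclic modules `RG / I`, where `I` is generated by trivial units and sums `a + b` of two
trivial units. `RG / I` is projective, so `I` is the left annihilator of an idempotent `f` of `RG`. If
`f ≠ 0`, then `(a + b) f = 0` implies that `a` and `b` have the same group element, since otherwise the
support of `f` would be invariant under a translation of infinite order; so `I` is generated by elements
of `R` and `e = ε(f)` is an idempotent of `R` with `I = RG (1 - e)`. -/

namespace Pool.Agent.Results.MP_c052b4_al.GridProjectives

open Matrix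

section defs

variable {R : Type} [Ring R] {G : Type} [Group G]

/-- neighbouring points of the square grid -/
def Neighbours (a b : ℤ × ℤ) : Prop :=
  (a.1 = b.1 ∧ (a.2 = b.2 + 1 ∨ a.2 + 1 = b.2)) ∨ (a.2 = b.2 ∧ (a.1 = b.1 + 1 ∨ a.1 + 1 = b.1))

/-- the elements `± s` (`s = 1`, `s ∈ S` or `s⁻¹ ∈ S`) and `± t` (`t ∈ T`) of the group ring -/
def Generator (S : Set G) (T : Set R) (x : MonoidAlgebra R G) : Prop :=
  (∃ s : G, (s = 1 ∨ s ∈ S ∨ s⁻¹ ∈ S) ∧
      (x = MonoidAlgebra.single s 1 ∨ x = MonoidAlgebra.single s (-1))) ∨
    ∃ t ∈ T, x = MonoidAlgebra.single 1 t ∨ x = MonoidAlgebra.single 1 (-t)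

/-- A matrix which is supported on a finite piece of the square grid: its rows are at the points
`ρ i`, its columns at the points `c j`, all these points are different, the entry at `i j` is zero
unless `ρ i` and `c j` are neighbours; the nonzero entries are `± s` or `± t`; each row and each column
has at most three of them. -/
def OnGrid (S : Set G) (T : Set R) {κ : Type} (B : Matrix κ κ (MonoidAlgebra R G)) : Prop :=
  ∃ ρ c : κ → ℤ × ℤ, Function.Injective ρ ∧ Function.Injective c ∧ (∀ i j, ρ i ≠ c j) ∧
    (∀ i j, B i j ≠ 0 → Neighbours (ρ i) (c j)) ∧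
    (∀ i j, B i j = 0 ∨ Generator S T (B i j)) ∧
    (∀ i, {j | B i j ≠ 0}.ncard ≤ 3) ∧ (∀ j, {i | B i j ≠ 0}.ncard ≤ 3)

/-- all nonzero entries are trivial units `u g`, with `u` a unit of `R` and `g ∈ G` -/
def TrivialUnits {ι κ : Type} (B : Matrix ι κ (MonoidAlgebra R G)) : Prop :=
  ∀ i j, B i j = 0 ∨ ∃ (g : G) (u : Rˣ), B i j = MonoidAlgebra.single g (u : R)

/-- the left module `P` is presented by the matrix `B`: one generator for each column, one relation
for each row -/
def PresentedBy {ι κ : Type} [Fintype ι] (B : Matrix ι κ (MonoidAlgebra R G)) (P : Type)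
    [AddCommGroup P] [Module (MonoidAlgebra R G) P] : Prop :=
  Nonempty (P ≃ₗ[MonoidAlgebra R G]
    ((κ → MonoidAlgebra R G) ⧸ LinearMap.range B.vecMulLinear))

/-- `P` is induced from a finitely generated projective `R`-module: it is presented by the matrix
`1 - E` for an idempotent matrix `E` over `R` (so it is `RGⁿ E = RG ⊗ Rⁿ E`) -/
def Extended (R G : Type) [Ring R] [Group G] (P : Type) [AddCommGroup P]
    [Module (MonoidAlgebra R G) P] : Prop :=
  ∃ (n : ℕ) (E : Matrix (Fin n) (Fin n) R), E * E = E ∧
    PresentedBy ((1 - E).map (fun r : R => (MonoidAlgebra.single 1 r : MonoidAlgebra R G))) P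

/-- the class of `P` in `K₀(RG)` comes from `K₀(R)` -/
def StablyExtended (R G : Type) [Ring R] [Group G] (P : Type) [AddCommGroup P]
    [Module (MonoidAlgebra R G) P] : Prop :=
  ∃ (N N' : Type) (_ : AddCommGroup N) (_ : Module (MonoidAlgebra R G) N) (_ : AddCommGroup N')
    (_ : Module (MonoidAlgebra R G) N'), Extended R G N ∧ Extended R G N' ∧
      Nonempty ((P × N) ≃ₗ[MonoidAlgebra R G] N')

end defs

open TH57.Thr TH57.TT2 TH6.LF Pool.Agent.R719.DD Pool.Agent.R472.Grid in
/-- Let `R` be any ring, generated as a ring by `T`, and `G` any group, generated by `S`.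

(1) Every finitely generated projective `RG`-module is presented by a square matrix supported on a
piece of the square grid, with entries `0`, `± s` and `± t`, and at most three nonzero ones in each row
and column. (2) Hence `K₀(R) → K₀(RG)` is surjective if and only if the classes of the modules with
such a presentation are in the image. (3) Let `G` be torsion-free. A projective `RG`-module which is
presented by a finite matrix with entries `0` and `u g` (`u` a unit of `R`, `g ∈ G`, no condition on
the positions) with at most two nonzero entries in each row is isomorphic to `RG e₁ ⊕ ... ⊕ RG eₘ` for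
idempotents `e₁, ..., eₘ` of `R`. -/
theorem result (R : Type) [Ring R] (T : Set R) (hT : Subring.closure T = ⊤)
    (G : Type) [Group G] (S : Set G) (hS : Subgroup.closure S = ⊤) :
    (∀ (P : Type) [AddCommGroup P] [Module (MonoidAlgebra R G) P],
      Module.Finite (MonoidAlgebra R G) P → Module.Projective (MonoidAlgebra R G) P →
      ∃ (κ : Type) (_ : Fintype κ) (B : Matrix κ κ (MonoidAlgebra R G)),
        OnGrid S T B ∧ PresentedBy B P) ∧
    ((∀ (P : Type) [AddCommGroup P] [Module (MonoidAlgebra R G) P],
        Module.Finite (MonoidAlgebra R G) P → Module.Projective (MonoidAlgebra R G) P →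
        StablyExtended R G P) ↔
      ∀ (κ : Type) [Fintype κ] (B : Matrix κ κ (MonoidAlgebra R G)) (P : Type) [AddCommGroup P]
        [Module (MonoidAlgebra R G) P], OnGrid S T B → PresentedBy B P →
        Module.Projective (MonoidAlgebra R G) P → StablyExtended R G P) ∧
    ((∀ g : G, ∀ k : ℕ, 0 < k → g ^ k = 1 → g = 1) →
      ∀ (ι κ : Type) [Fintype ι] [Fintype κ] (B : Matrix ι κ (MonoidAlgebra R G)) (P : Type)
        [AddCommGroup P] [Module (MonoidAlgebra R G) P], Module.Projective (MonoidAlgebra R G) P →
        PresentedBy B P → TrivialUnits B → (∀ i, {j | B i j ≠ 0}.ncard ≤ 2) →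
        ∃ (m : ℕ) (e : Fin m → R), (∀ j, e j * e j = e j) ∧
          PresentedBy (diagonal fun j => (MonoidAlgebra.single 1 (1 - e j) :
            MonoidAlgebra R G)) P) := by
  classical
  have key : ∀ (P : Type) [AddCommGroup P] [Module (MonoidAlgebra R G) P],
      Module.Finite (MonoidAlgebra R G) P → Module.Projective (MonoidAlgebra R G) P →
      ∃ (κ : Type) (_ : Fintype κ) (B : Matrix κ κ (MonoidAlgebra R G)),
        OnGrid S T B ∧ PresentedBy B P := by
    intro P _ _ hf hP
    obtain ⟨n, A, ⟨e⟩⟩ := exists_square P hf hP
    obtain ⟨ν, i1, i2, U, V, _, ρ, c, a1, a2, a3, a4, a5, a6, a7⟩ :=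
      grid_form (one_gensR S T) (neg_gensR S T) (genBy_top _ (closure_gensR S hS T hT)) A
    obtain ⟨e2⟩ := coker_stab A U V
    exact ⟨Fin n ⊕ ν, inferInstance, U.val * fromBlocks A 0 0 1 * V.val,
      ⟨ρ, c, a1, a2, a3, a4, a5, a6, a7⟩, ⟨e.trans e2⟩⟩
  refine ⟨key, ⟨?_, ?_⟩, ?_⟩
  · rintro h κ _ B P _ _ _ ⟨e⟩ hP
    exact h P (Module.Finite.equiv e.symm) hP
  · intro h P _ _ hf hP
    obtain ⟨κ, i1, B, hB, hB2⟩ := key P hf hP
    exact h κ B P hB hB2 hP
  · rintro htf ι κ _ _ B P _ _ hP ⟨e⟩ hB h
    exact ext_rows htf B h hB P hP e

end Pool.Agent.Results.MP_c052b4_al.GridProjectives
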