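import Pool.Agent.R630.FJ.Mit

/-!
# Embeddings into mitotic, hence acyclic, groups inside the Farrell–Jones class

A group `M` is mitotic (Baumslag, Dyer, Heller) if for every finitely generated subgroup `H` there are
`s, d` in `M` such that `H` commutes with `s H s⁻¹` and `d g d⁻¹ = g (s g s⁻¹)` for all `g` in `H`.
Mitotic groups are acyclic.

Every group `G` embeds in a mitotic group `M`, torsion-free if `G` is torsion-free, such that `M`
belongs to exactly the same classes `C` with the closure properties `ClosedE C` as `G`. The class of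
groups satisfying the K-theoretic Farrell–Jones conjecture with coefficients and finite wreath products
has these closure properties.

Outline of the proof. The group `G` is embedded in the group of the functions with finitely many values
`ℕ ⊔ ℕ ⊔ ℕ → G` as the group of the functions which are constant on the first copy of `ℕ` and trivial
outside. There are two permutations of `ℕ ⊔ ℕ ⊔ ℕ`, one mapping the first copy onto the second and
one mapping the first copy onto the union of the first and the second. The group generated by `G` and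
by these two permutations is in every class `C` that contains `G`, by the theorem on groups of
finite-valued functions (problem MP_8f66f0_al), and contains a mitosis of `G`. This is iterated.
-/

set_option autoImplicit false

namespace Pool.Agent.Results.MP_c052b4_al.MitoticEmbeddings

open Pool.Agent.Y110.FJ Pool.Agent.R630.FJ

/-- `Γ` is torsion-free -/
def TorsionFree (Γ : Type) [Group Γ] : Prop := ∀ g : Γ, ∀ k : ℕ, 0 < k → g ^ k = 1 → g = 1

/-- `M` is mitotic -/
def IsMitotic (M : Type) [Group M] : Prop :=
  ∀ H : Subgroup M, H.FG → ∃ s d : M, (∀ g ∈ H, ∀ h ∈ H, g * (s * h * s⁻¹) = (s * h * s⁻¹) * g) ∧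
    ∀ g ∈ H, d * g * d⁻¹ = g * (s * g * s⁻¹)

/-- every element of `M` has roots of all orders -/
def IsDivisible (M : Type) [Group M] : Prop := ∀ g : M, ∀ n : ℕ, 0 < n → ∃ x : M, x ^ n = g

section lim

variable {T : ℕ → Type} [∀ n, Group (T n)] (f : ∀ n, T n →* T (n + 1))

theorem lim_fg (H : Subgroup (Lim f)) (hH : H.FG) :
    ∃ n, ∀ h ∈ H, ∃ x : T n, toLim f n x = h := by
  classical
  obtain ⟨S, hS⟩ := hH
  have h1 : ∀ s : Lim f, ∃ n, ∃ x : T n, toLim f n x = s := toLim_surj f
  choose ν hν using h1
  refine ⟨S.sup ν, fun h hh => ?_⟩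
  have h2 : H ≤ (toLim f (S.sup ν)).range := by
    rw [← hS, Subgroup.closure_le]
    intro s hs
    obtain ⟨x, hx⟩ := hν s
    exact ⟨up f (Finset.le_sup hs) x, by rw [toLim_up, hx]⟩
  exact h2 hh

theorem lim_mitotic (hf : ∀ n, StepP (T n) (T (n + 1)) (f n)) : IsMitotic (Lim f) := by
  intro H hH
  obtain ⟨n, hn⟩ := lim_fg f H hH
  obtain ⟨s, d, h1, h2⟩ := (hf n).1
  refine ⟨toLim f (n + 1) s, toLim f (n + 1) d, ?_, ?_⟩
  · intro g hg h hh
    obtain ⟨x, rfl⟩ := hn g hg
    obtain ⟨y, rfl⟩ := hn h hh
    have h3 := h1 x y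
    rw [← toLim_succ f n x, ← toLim_succ f n y, ← map_inv, ← map_mul, ← map_mul, ← map_mul,
      ← map_mul]
    exact congrArg _ h3
  · intro g hg
    obtain ⟨x, rfl⟩ := hn g hg
    rw [← toLim_succ f n x, ← map_inv, ← map_inv, ← map_mul, ← map_mul, ← map_mul, ← map_mul,
      ← map_mul]
    exact congrArg _ (h2 x)

theorem lim_divisible (hf : ∀ (n : ℕ) (g : T n), ∃ x, x ^ (n + 1) = f n g) :
    IsDivisible (Lim f) := by
  intro g n hn
  obtain ⟨i, x, rfl⟩ := toLim_surj f g
  have hi : i ≤ n * (i + 1) - 1 := by
    have := Nat.mul_le_mul_right (i + 1) hn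
    omega
  have hk : n * (i + 1) - 1 + 1 = n * (i + 1) := by
    have := Nat.mul_le_mul_right (i + 1) hn
    omega
  obtain ⟨y, hy⟩ := hf _ (up f hi x)
  refine ⟨toLim f _ y ^ (i + 1), ?_⟩
  rw [← pow_mul, mul_comm (i + 1) n, ← toLim_up f hi x, ← toLim_succ f _ (up f hi x), ← hy, map_pow]
  congr 1
  exact hk.symm

theorem lim_countable (h : ∀ n, Countable (T n)) : Countable (Lim f) := by
  have h1 : Function.Surjective (fun p : Σ n, T n => toLim f p.1 p.2) := by
    intro y
    obtain ⟨n, x, hx⟩ := toLim_surj f y
    exact ⟨⟨n, x⟩, hx⟩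
  exact h1.countable

theorem lim_tf (hinj : ∀ n, Function.Injective (f n)) (h : ∀ n, TF (T n)) : TF (Lim f) := by
  intro g k hk hg
  obtain ⟨n, x, rfl⟩ := toLim_surj f g
  have h1 : x = 1 := h n x k hk (toLim_injective f hinj n (by rw [map_pow, hg, map_one]))
  rw [h1, map_one]

end lim

/-- adding roots -/
theorem root_step (n : ℕ) (A : Type) [Group A] : ∃ (B : Type) (_ : Group B) (f : A →* B),
    Function.Injective f ∧ StepP A B f ∧ ∀ g, ∃ x, x ^ (n + 1) = f g := by
  obtain ⟨A₁, i₁, f, hf, ⟨⟨s, d, h1, h2⟩, h3, h4⟩, -⟩ := mit_step A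
  have hinj : Function.Injective (diagR n A₁) := by
    intro x y hxy
    exact congrFun (SemidirectProduct.inl_injective hxy) 0
  refine ⟨FW (MonoidHom.id (Equiv.Perm (Fin (n + 1)))) A₁, inferInstance, (diagR n A₁).comp f,
    hinj.comp hf, ⟨⟨diagR n A₁ s, diagR n A₁ d, ?_, ?_⟩, ?_, ?_⟩, fun g => ⟨rt n A₁ (f g), ?_⟩⟩
  · intro g h
    show diagR n A₁ (f g) * (diagR n A₁ s * diagR n A₁ (f h) * (diagR n A₁ s)⁻¹) =
      (diagR n A₁ s * diagR n A₁ (f h) * (diagR n A₁ s)⁻¹) * diagR n A₁ (f g)
    rw [← map_inv, ← map_mul, ← map_mul, ← map_mul, ← map_mul]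
    exact congrArg _ (h1 g h)
  · intro g
    show diagR n A₁ d * diagR n A₁ (f g) * (diagR n A₁ d)⁻¹ =
      diagR n A₁ (f g) * (diagR n A₁ s * diagR n A₁ (f g) * (diagR n A₁ s)⁻¹)
    rw [← map_inv, ← map_inv, ← map_mul, ← map_mul, ← map_mul, ← map_mul, ← map_mul]
    exact congrArg _ (h2 g)
  · intro hA
    have := h3 hA
    exact (SemidirectProduct.equivProd (φ := shAut (MonoidHom.id (Equiv.Perm (Fin (n + 1)))) A₁)).injective.countable
  · intro C hC hA
    exact fw_fin_mem n hC (h4 C hC hA)
  · exact rt_pow_last n A₁ (f g)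

/-- Let `G` be any group.
(1) `G` embeds in a mitotic group `M`, which is torsion-free (countable) if `G` is torsion-free
(countable), and which is in a class `C` with the closure properties `ClosedE C` if and only if `G` is.
(2) `G` embeds in a mitotic and divisible group `M`, countable if `G` is, which is in a class `C` with
the closure properties `ClosedE C` if and only if `G` is.
(3) Consequently, for a class `C` with `ClosedE C`: all groups are in `C` if all mitotic divisible
groups are, and all torsion-free groups are in `C` if all torsion-free mitotic groups are. -/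
theorem result :
    (∀ (G : Type) [Group G], ∃ (M : Type) (_ : Group M) (f : G →* M), Function.Injective f ∧
      IsMitotic M ∧ (TorsionFree G → TorsionFree M) ∧ (Countable G → Countable M) ∧
      ∀ C : ∀ (G : Type) [Group G], Prop, ClosedE C → (C M ↔ C G)) ∧
    (∀ (G : Type) [Group G], ∃ (M : Type) (_ : Group M) (f : G →* M), Function.Injective f ∧
      IsMitotic M ∧ IsDivisible M ∧ (Countable G → Countable M) ∧
      ∀ C : ∀ (G : Type) [Group G], Prop, ClosedE C → (C M ↔ C G)) ∧
    (∀ C : ∀ (G : Type) [Group G], Prop, ClosedE C →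
      ((∀ (G : Type) [Group G], IsMitotic G → IsDivisible G → C G) → ∀ (G : Type) [Group G], C G) ∧
      ((∀ (G : Type) [Group G], IsMitotic G → TorsionFree G → C G) →
        ∀ (G : Type) [Group G], TorsionFree G → C G)) := by
  have p1 : ∀ (G : Type) [Group G], ∃ (M : Type) (_ : Group M) (f : G →* M), Function.Injective f ∧
      IsMitotic M ∧ (TorsionFree G → TorsionFree M) ∧ (Countable G → Countable M) ∧
      ∀ C : ∀ (G : Type) [Group G], Prop, ClosedE C → (C M ↔ C G) := by
    intro G _
    obtain ⟨T, iT, f, e, hf⟩ := exists_tower (fun _ A B _ _ f => StepP A B f ∧ (TF A → TF B))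
      (fun _ A _ => mit_step A) G
    have hinj : Function.Injective ((toLim f 0).comp e.toMonoidHom) :=
      (toLim_injective f (fun n => (hf n).1) 0).comp e.injective
    refine ⟨Lim f, inferInstance, (toLim f 0).comp e.toMonoidHom, hinj,
      lim_mitotic f (fun n => (hf n).2.1), ?_, ?_, ?_⟩
    · intro hG
      refine lim_tf f (fun n => (hf n).1) fun n => ?_
      induction n with
      | zero => exact TF.of_injective e.symm.toMonoidHom e.symm.injective hG
      | succ n ih => exact (hf n).2.2 ih
    · intro hG
      refine lim_countable f fun n => ?_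
      induction n with
      | zero => exact e.symm.injective.countable
      | succ n ih => exact (hf n).2.1.2.1 ih
    · intro C hC
      refine ⟨hC.base.of_injective _ _ _ hinj, fun hG => lim_mem f hC.base (fun n => (hf n).1) ?_⟩
      intro n
      induction n with
      | zero => exact hC.base.of_injective _ _ e.symm.toMonoidHom e.symm.injective hG
      | succ n ih => exact (hf n).2.1.2.2 C hC ih
  have p2 : ∀ (G : Type) [Group G], ∃ (M : Type) (_ : Group M) (f : G →* M), Function.Injective f ∧
      IsMitotic M ∧ IsDivisible M ∧ (Countable G → Countable M) ∧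
      ∀ C : ∀ (G : Type) [Group G], Prop, ClosedE C → (C M ↔ C G) := by
    intro G _
    obtain ⟨T, iT, f, e, hf⟩ := exists_tower
      (fun n A B _ _ f => StepP A B f ∧ ∀ g, ∃ x, x ^ (n + 1) = f g)
      (fun n A _ => root_step n A) G
    have hinj : Function.Injective ((toLim f 0).comp e.toMonoidHom) :=
      (toLim_injective f (fun n => (hf n).1) 0).comp e.injective
    refine ⟨Lim f, inferInstance, (toLim f 0).comp e.toMonoidHom, hinj,
      lim_mitotic f (fun n => (hf n).2.1), lim_divisible f (fun n => (hf n).2.2), ?_, ?_⟩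
    · intro hG
      refine lim_countable f fun n => ?_
      induction n with
      | zero => exact e.symm.injective.countable
      | succ n ih => exact (hf n).2.1.2.1 ih
    · intro C hC
      refine ⟨hC.base.of_injective _ _ _ hinj, fun hG => lim_mem f hC.base (fun n => (hf n).1) ?_⟩
      intro n
      induction n with
      | zero => exact hC.base.of_injective _ _ e.symm.toMonoidHom e.symm.injective hG
      | succ n ih => exact (hf n).2.1.2.2 C hC ih
  refine ⟨p1, p2, fun C hC => ⟨fun h G _ => ?_, fun h G _ hG => ?_⟩⟩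
  · obtain ⟨M, iM, f, -, h1, h2, -, h3⟩ := p2 G
    exact (h3 C hC).1 (h M h1 h2)
  · obtain ⟨M, iM, f, -, h1, h2, -, h3⟩ := p1 G
    exact (h3 C hC).1 (h M h1 (h2 hG))

end Pool.Agent.Results.MP_c052b4_al.MitoticEmbeddings
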